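import Pool.Agent.W965.LU.Stms

set_option autoImplicit false

/-!
# Project LU (MP_014066_co): the Erdos-Szemeredi process
-/

namespace Pool.Agent.W839.LU.ES

open Finset
open Pool.Agent.W965.LU

theorem step (hpat : S_PAT) (g : ℕ → ℕ → Bool) (c : Bool) (S : Finset ℕ) (N J p Z0 : ℕ)
    (hg : ∀ a b, g a b = g b a) (hJ : 1 ≤ J) (hp : 1 ≤ p)
    (hdeg : ∀ v ∈ S, 8 * J * (S.filter (fun y => g v y = c)).card ≤ N)
    (hNS : N ≤ 2 * S.card) (hJp : 8 * J * p ≤ N) (hZ0 : 4 * (4 * J) ^ p * Z0 ≤ N)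
    (hI : ∀ Z ⊆ S, Z0 ≤ Z.card → ∃ I ⊆ Z, I.card = 2 * p ∧ Free g c I)
    (j : ℕ) (hj : j + 1 ≤ J) (A : Finset ℕ) (hAS : A ⊆ S) (hA : j * p ≤ A.card)
    (hfree : Free g c A) : ∃ A' ⊆ S, (j + 1) * p ≤ A'.card ∧ Free g c A' := by
  classical
  rcases le_or_gt ((j + 1) * p) A.card with h | h
  · exact ⟨A, hAS, h, hfree⟩
  have hAJ : A.card ≤ J * p := h.le.trans (Nat.mul_le_mul_right p hj)
  set bad := S.filter (fun v => p < (A.filter (fun y => g v y = c)).card) with hbad
  have hdc : ∑ v ∈ S, (A.filter (fun y => g v y = c)).card =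
      ∑ a ∈ A, (S.filter (fun y => g a y = c)).card := by
    have h1 := Finset.sum_card_bipartiteAbove_eq_sum_card_bipartiteBelow
      (s := S) (t := A) (fun v y => g v y = c)
    unfold Finset.bipartiteAbove Finset.bipartiteBelow at h1
    rw [h1]
    refine Finset.sum_congr rfl fun a _ => ?_
    congr 1
    refine Finset.filter_congr fun v _ => ?_
    show g v a = c ↔ g a v = c
    rw [hg v a]
  have h8 : 8 * bad.card ≤ N := by
    have h1 : bad.card * p ≤ ∑ v ∈ S, (A.filter (fun y => g v y = c)).card := by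
      calc bad.card * p = ∑ v ∈ bad, p := by rw [Finset.sum_const, smul_eq_mul]
        _ ≤ ∑ v ∈ bad, (A.filter (fun y => g v y = c)).card :=
            Finset.sum_le_sum fun v hv => (Finset.mem_filter.1 hv).2.le
        _ ≤ ∑ v ∈ S, (A.filter (fun y => g v y = c)).card :=
            Finset.sum_le_sum_of_subset (Finset.filter_subset _ _)
    have h2 : 8 * J * ∑ a ∈ A, (S.filter (fun y => g a y = c)).card ≤ A.card * N := by
      rw [Finset.mul_sum]
      calc ∑ a ∈ A, 8 * J * (S.filter (fun y => g a y = c)).card ≤ ∑ a ∈ A, N :=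
            Finset.sum_le_sum fun a ha => hdeg a (hAS ha)
        _ = A.card * N := by rw [Finset.sum_const, smul_eq_mul]
    have h3 : 8 * J * (bad.card * p) ≤ J * p * N := by
      calc 8 * J * (bad.card * p) ≤ 8 * J * ∑ v ∈ S, (A.filter (fun y => g v y = c)).card :=
            Nat.mul_le_mul_left _ h1
        _ = 8 * J * ∑ a ∈ A, (S.filter (fun y => g a y = c)).card := by rw [hdc]
        _ ≤ A.card * N := h2
        _ ≤ J * p * N := Nat.mul_le_mul_right N hAJ
    have h4 : J * p * (8 * bad.card) ≤ J * p * N := by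
      calc J * p * (8 * bad.card) = 8 * J * (bad.card * p) := by ring
        _ ≤ J * p * N := h3
    exact Nat.le_of_mul_le_mul_left h4 (Nat.mul_pos hJ hp)
  set S' := (S \ A) \ bad with hS'
  have hS'card : N ≤ 4 * S'.card := by
    have h1 : S.card - A.card ≤ (S \ A).card := Finset.le_card_sdiff A S
    have h2 : (S \ A).card - bad.card ≤ S'.card := Finset.le_card_sdiff bad (S \ A)
    have h3 : 8 * A.card ≤ N := by
      calc 8 * A.card ≤ 8 * (J * p) := Nat.mul_le_mul_left 8 hAJ
        _ = 8 * J * p := by ring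
        _ ≤ N := hJp
    omega
  have hS'S : S' ⊆ S := Finset.sdiff_subset.trans Finset.sdiff_subset
  set Pat := A.powerset.filter (fun T => T.card ≤ p) with hPat
  have hPatcard : Pat.card ≤ (4 * J) ^ p := hpat A J p hJ hAJ
  have hmaps : ∀ v ∈ S', A.filter (fun y => g v y = c) ∈ Pat := by
    intro v hv
    rw [hPat, Finset.mem_filter, Finset.mem_powerset]
    refine ⟨Finset.filter_subset _ _, ?_⟩
    by_contra hcon
    have hvb : v ∉ bad := (Finset.mem_sdiff.1 hv).2
    exact hvb (Finset.mem_filter.2 ⟨hS'S hv, not_le.1 hcon⟩)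
  have hPatne : Pat.Nonempty := ⟨∅, by
    rw [hPat, Finset.mem_filter]
    exact ⟨Finset.empty_mem_powerset A, by simp⟩⟩
  have hmul : Pat.card * Z0 ≤ S'.card := by
    have h1 : Pat.card * Z0 ≤ (4 * J) ^ p * Z0 := Nat.mul_le_mul_right Z0 hPatcard
    have h2 : 4 * ((4 * J) ^ p * Z0) ≤ N := by
      rw [← mul_assoc]
      exact hZ0
    omega
  obtain ⟨T, hT, hZ⟩ := Finset.exists_le_card_fiber_of_mul_le_card_of_maps_to hmaps hPatne hmul
  rw [hPat, Finset.mem_filter, Finset.mem_powerset] at hT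
  obtain ⟨I, hIZ, hIcard, hIfree⟩ := hI _ ((Finset.filter_subset _ _).trans hS'S) hZ
  have hIS' : ∀ v ∈ I, v ∈ S' ∧ A.filter (fun y => g v y = c) = T := fun v hv =>
    Finset.mem_filter.1 (hIZ hv)
  have hIA : ∀ v ∈ I, v ∉ A := fun v hv =>
    (Finset.mem_sdiff.1 (Finset.mem_sdiff.1 (hIS' v hv).1).1).2
  have hdisj : Disjoint (A \ T) I := by
    rw [Finset.disjoint_left]
    intro v hv hvI
    exact hIA v hvI (Finset.mem_sdiff.1 hv).1
  have hcross : ∀ a ∈ A \ T, ∀ v ∈ I, g v a ≠ c := by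
    intro a ha v hv hc
    have h1 := Finset.mem_sdiff.1 ha
    apply h1.2
    rw [← (hIS' v hv).2]
    exact Finset.mem_filter.2 ⟨h1.1, hc⟩
  refine ⟨(A \ T) ∪ I, ?_, ?_, ?_⟩
  · refine Finset.union_subset (Finset.sdiff_subset.trans hAS) fun v hv => hS'S (hIS' v hv).1
  · rw [Finset.card_union_of_disjoint hdisj, hIcard]
    have h1 : A.card - T.card ≤ (A \ T).card := Finset.le_card_sdiff T A
    have h2 := hT.2
    have h3 : (j + 1) * p = j * p + p := by ring
    omega
  · intro a ha b hb hab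
    rcases Finset.mem_union.1 ha with ha | ha <;> rcases Finset.mem_union.1 hb with hb | hb
    · exact hfree a (Finset.mem_sdiff.1 ha).1 b (Finset.mem_sdiff.1 hb).1 hab
    · rw [hg a b]
      exact hcross a ha b hb
    · exact hcross b hb a ha
    · exact hIfree a ha b hb hab

theorem main (hpat : S_PAT) : S_ES := by
  intro g c S N J p Z0 hg hJ hp hdeg hNS hJp hZ0 hI j
  induction j with
  | zero =>
    intro _
    refine ⟨∅, Finset.empty_subset S, by simp, ?_⟩
    intro a ha
    exact absurd ha (Finset.notMem_empty a)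
  | succ j ih =>
    intro hj
    obtain ⟨A, hAS, hA, hfree⟩ := ih (by omega)
    exact step hpat g c S N J p Z0 hg hJ hp hdeg hNS hJp hZ0 hI j hj A hAS hA hfree

end Pool.Agent.W839.LU.ES
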